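import Pool.Agent.TH315.OpId.Cond
import Pool.Agent.TH315.OpId.Ren
import Pool.Agent.H812R2.AP.NoAP
import Pool.Agent.Helper234.L1MAP.Main

/-!
# Pointwise approximation by finite rank operators in an ideal does not give the BAP for the ideal

Let `A` be the Banach operator ideal of the operators that factor through a space `ℓ_∞(Γ)`.
Because `ℓ_∞(Γ)` has the metric approximation property, every Banach space `X` satisfies `(P_1)`
for `A`. On the other hand the canonical embedding of `X` in `ℓ_∞` of the dual ball is in `A` with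
norm one, so that the `λ`-BAP for `A` is the usual `λ`-bounded approximation property.
-/

set_option autoImplicit false

open Filter Topology
open scoped ENNReal

namespace Pool.Agent.Results.MP_2b2a50_an.PointwiseNotBAP

open Pool.Agent.TH315.OpId

/-- `ℓ_∞(Γ)` as a Banach space -/
noncomputable def ellInf (𝕜 : Type) [RCLike 𝕜] (Γ : Type) : BanSp 𝕜 := ⟨lp (fun _ : Γ => 𝕜) ∞⟩

/-- `ℓ_1` as a Banach space -/
noncomputable def ellOne (𝕜 : Type) [RCLike 𝕜] : BanSp 𝕜 := ⟨lp (fun _ : ℕ => 𝕜) 1⟩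

/-- The members of `A` are the operators which have a factorization `T = R S` through a space
`ℓ_∞(Γ)`, and the norm of `A` is the infimum of `‖R‖ ‖S‖` over these factorizations. -/
def IsFactorIdeal {𝕜 : Type} [RCLike 𝕜] (A : OpClass 𝕜) : Prop :=
  ∀ (X Y : BanSp 𝕜) (T : Op X Y),
    (A.Mem T ↔ ∃ (Γ : Type) (S : Op X (ellInf 𝕜 Γ)) (R : Op (ellInf 𝕜 Γ) Y), T = cmpOp R S) ∧
    A.nrm T = sInf {c | ∃ (Γ : Type) (S : Op X (ellInf 𝕜 Γ)) (R : Op (ellInf 𝕜 Γ) Y),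
      T = cmpOp R S ∧ R.norm * S.norm ≤ c}

theorem isFactorIdeal (𝕜 : Type) [RCLike 𝕜] : IsFactorIdeal (facIdeal 𝕜) := by
  intro X Y T
  refine ⟨⟨?_, ?_⟩, rfl⟩
  · rintro ⟨c, Γ, S, R, h, -⟩
    exact ⟨Γ, S, R, h⟩
  · rintro ⟨Γ, S, R, h⟩
    exact ⟨_, Γ, S, R, h, le_rfl⟩

theorem davie (𝕜 : Type) [RCLike 𝕜] : ∃ X : BanSp 𝕜, ∀ lam : ℝ, ¬ BAPFor (facIdeal 𝕜) lam X := by
  obtain ⟨s⟩ := Pool.Agent.H812R2.AP.exists_sys
  refine ⟨⟨s.XT 𝕜⟩, fun lam h => ?_⟩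
  obtain ⟨S, h1, -, h2⟩ := bap_of_bapFor _ lam h (s.cpt 𝕜) (s.isCompact_cpt (𝕜 := 𝕜)) (1 / 7) (by norm_num)
  obtain ⟨x, hx, hx2⟩ := s.far S h1
  have := h2 x hx
  norm_num at hx2 this
  linarith

theorem ell1 (𝕜 : Type) [RCLike 𝕜]
    (h : Pool.Agent.Helper234.L1MAP.RenormFailsMAP 𝕜 (lp (fun _ : ℕ => 𝕜) 1)) :
    ∃ X : BanSp 𝕜, Nonempty (X.carrier ≃L[𝕜] (ellOne 𝕜).carrier) ∧
      ¬ BAPFor (facIdeal 𝕜) 1 X := by
  obtain ⟨N, hN, hmap⟩ := h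
  have hN' : IsEquivNorm N := hN
  refine ⟨⟨Ren N hN'⟩, ⟨(Ren.iso N hN').symm⟩, fun hb => hmap ?_⟩
  intro K hK ε hε
  obtain ⟨a, b, ha, hab⟩ := hN
  obtain ⟨M, hM⟩ : ∃ M : ℝ, ∀ x ∈ K, N x ≤ M := by
    obtain ⟨C, hC⟩ := hK.isBounded.exists_norm_le
    refine ⟨|b| * C, fun x hx => (hab x).2.trans ?_⟩
    have h1 := hC x hx
    have h2 := le_abs_self b
    calc b * ‖x‖ ≤ |b| * ‖x‖ := mul_le_mul_of_nonneg_right h2 (norm_nonneg _)
      _ ≤ |b| * C := mul_le_mul_of_nonneg_left h1 (abs_nonneg _)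
  set δ : ℝ := ε / (|M| + 1 + ε) with hδ
  have hD : 0 < |M| + 1 + ε := by positivity
  have hδ0 : 0 < δ := by positivity
  obtain ⟨S, h1, h2, h3⟩ := bap_of_bapFor _ 1 hb ((Ren.iso N hN') '' K)
    (hK.image (Ren.iso N hN').continuous) δ hδ0
  rw [max_eq_left zero_le_one] at h2
  have hpos : 0 < 1 + δ := by positivity
  set T : lp (fun _ : ℕ => 𝕜) 1 →L[𝕜] lp (fun _ : ℕ => 𝕜) 1 :=
    (((1 + δ)⁻¹ : ℝ) : 𝕜) • (((Ren.iso N hN').symm : _ →L[𝕜] _).comp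
      (S.comp ((Ren.iso N hN') : _ →L[𝕜] _))) with hT
  have hTa : ∀ x, T x = (((1 + δ)⁻¹ : ℝ) : 𝕜) • (S (Ren.iso N hN' x)).val := fun x => rfl
  refine ⟨T, ?_, fun x => ?_, fun x hx => ?_⟩
  · have h4 : FR (((Ren.iso N hN').symm : _ →L[𝕜] lp (fun _ : ℕ => 𝕜) 1).comp
      (S.comp ((Ren.iso N hN') : lp (fun _ : ℕ => 𝕜) 1 →L[𝕜] _))) :=
      (h1.comp_right _).comp_left _
    have h5 := h4.comp_left ((((1 + δ)⁻¹ : ℝ) : 𝕜) •
      ContinuousLinearMap.id 𝕜 (lp (fun _ : ℕ => 𝕜) 1))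
    exact h5
  · rw [hTa, map_smul_eq_mul, RCLike.norm_ofReal, abs_of_pos (inv_pos.2 hpos),
      inv_mul_eq_div, div_le_iff₀ hpos]
    have h4 : ‖S (Ren.iso N hN' x)‖ ≤ (1 + δ) * ‖Ren.iso N hN' x‖ :=
      (S.le_opNorm _).trans (mul_le_mul_of_nonneg_right h2 (norm_nonneg _))
    rw [Ren.norm_def, Ren.norm_def, Ren.iso_val] at h4
    linarith
  · have h4 := h3 _ ⟨x, hx, rfl⟩
    rw [Ren.norm_def] at h4
    have h5 : ((S (Ren.iso N hN' x) - Ren.iso N hN' x).val : lp (fun _ : ℕ => 𝕜) 1) =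
      (S (Ren.iso N hN' x)).val - x := rfl
    rw [h5] at h4
    have h6 : T x - x = (((1 + δ)⁻¹ : ℝ) : 𝕜) • ((S (Ren.iso N hN' x)).val - x) +
        (((1 + δ)⁻¹ - 1 : ℝ) : 𝕜) • x := by
      rw [hTa]
      push_cast
      module
    rw [h6]
    refine (map_add_le_add N _ _).trans ?_
    rw [map_smul_eq_mul, map_smul_eq_mul, RCLike.norm_ofReal, RCLike.norm_ofReal,
      abs_of_pos (inv_pos.2 hpos)]
    have h7 : (1 + δ)⁻¹ - 1 = -(δ * (1 + δ)⁻¹) := by field_simp; ring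
    have h8 : (1 + δ)⁻¹ ≤ 1 := inv_le_one_of_one_le₀ (by linarith)
    have h9 : 0 < (1 + δ)⁻¹ := inv_pos.2 hpos
    rw [h7, abs_neg, abs_of_pos (by positivity)]
    have h10 : N x ≤ |M| := (hM x hx).trans (le_abs_self M)
    have h11 : 0 ≤ N x := apply_nonneg N x
    calc (1 + δ)⁻¹ * N ((S (Ren.iso N hN' x)).val - x) + δ * (1 + δ)⁻¹ * N x
        ≤ 1 * δ + δ * 1 * |M| := by gcongr
      _ = δ * (|M| + 1) := by ring
      _ ≤ ε := by
          rw [hδ, div_mul_eq_mul_div, div_le_iff₀ hD]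
          nlinarith

/-- Over `𝕜` let `A` be the Banach operator ideal of the operators that factor through a space
`ℓ_∞(Γ)`. Every Banach space satisfies condition `(P_1)` for `A`. But there is a Banach space which
has the `λ`-BAP for `A` for no `λ`, and there is a Banach space isomorphic to `ℓ_1` which fails the
`1`-BAP for `A`. -/
def NegativeAnswer (𝕜 : Type) [RCLike 𝕜] : Prop :=
  ∃ A : OpClass 𝕜, IsBanachOperatorIdeal A ∧ IsFactorIdeal A ∧ (∀ X : BanSp 𝕜, CondP A 1 X) ∧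
    (∃ X : BanSp 𝕜, ∀ lam : ℝ, ¬ BAPFor A lam X) ∧
    (∃ X : BanSp 𝕜, Nonempty (X.carrier ≃L[𝕜] (ellOne 𝕜).carrier) ∧ ¬ BAPFor A 1 X)

/-- **MP_2b2a50_an, Q1 (negative answer).** -/
theorem result : NegativeAnswer ℝ ∧ NegativeAnswer ℂ :=
  ⟨⟨facIdeal ℝ, facIdeal_ideal ℝ, isFactorIdeal ℝ, fun X => condP_facIdeal X, davie ℝ,
      ell1 ℝ Pool.Agent.Helper234.L1MAP.final.1⟩,
    ⟨facIdeal ℂ, facIdeal_ideal ℂ, isFactorIdeal ℂ, fun X => condP_facIdeal X, davie ℂ,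
      ell1 ℂ Pool.Agent.Helper234.L1MAP.final.2⟩⟩

end Pool.Agent.Results.MP_2b2a50_an.PointwiseNotBAP
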